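import Mathlib
import Pool.Agent.H10Net

set_option autoImplicit false

namespace Pool.Agent.Results.MP_2d87f2_co.CheegerNets

open Pool.Agent.H10Net

/-- For every `k ≥ 2` and every `ε > 0` there is an infinite, connected, locally finite,
vertex-transitive graph `G` such that `k`-nets of `G` exist and *every* `k`-net graph `G_k` of `G`
is locally finite and satisfies `h(G_k) < ε * h(G)`.  With `ε = 1` this is the negated form of Q1. -/
theorem result : ∀ k : ℕ, 2 ≤ k → ∀ ε : ℝ, 0 < ε → ∃ (V : Type) (H : SimpleGraph V),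
    Infinite V ∧ H.Connected ∧ (∀ v, {w | H.Adj v w}.Finite) ∧
    (∀ u v, ∃ φ : H ≃g H, φ u = v) ∧
    (∃ S, IsNet H k S) ∧
    ∀ S, IsNet H k S → (∀ v, {w | (netGraph H k S).Adj v w}.Finite) ∧
      cheeger (netGraph H k S) < ε * cheeger H :=
  main

end Pool.Agent.Results.MP_2d87f2_co.CheegerNets
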